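import Pool.Agent.V5helper52.VM.Stm

set_option autoImplicit false

open CategoryTheory AlgebraicGeometry MvPolynomial Pool.Agent.Y116.UV Pool.Agent.V5helper52.SF
  Pool.Agent.V5helper52.TR Pool.Agent.V5helper52.FW Pool.Agent.V5helper52.PT

namespace Pool.Agent.V5helper11.VM

theorem t_THC : Pool.Agent.V5helper52.VM.S_THC := by
  intro k _ σ _ _ T f m hm
  have h1 : th k T f = ∑ s ∈ f.support, th k T (monomial s (coeff s f)) := by
    conv_lhs => rw [f.as_sum]
    rw [map_sum]
  have h2 : ∀ s : σ →₀ ℕ, (th k T (monomial s (coeff s f))).coeff (fun t : T => (m t : ℤ)) =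
      if s = m then coeff m f else 0 := by
    intro s
    rw [th_monomial]
    by_cases hs : s = m
    · subst hs
      rw [if_pos hm, if_pos rfl, AddMonoidAlgebra.coeff_single, Finsupp.single_eq_same]
    · rw [if_neg hs]
      split_ifs with h3
      · rw [AddMonoidAlgebra.coeff_single, Finsupp.single_apply, if_neg]
        intro h4
        apply hs
        ext i
        by_cases hi : i ∈ T
        · have h5 := congrFun h4 ⟨i, hi⟩
          exact_mod_cast h5
        · have h6 : s i = 0 := by
            by_contra h7
            exact hi (h3 i h7)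
          have h8 : m i = 0 := by
            by_contra h7
            exact hi (hm i h7)
          rw [h6, h8]
      · simp
  have h3 : ∀ S : Finset (σ →₀ ℕ), (∑ s ∈ S, th k T (monomial s (coeff s f))).coeff
      (fun t : T => (m t : ℤ)) = ∑ s ∈ S, (if s = m then coeff m f else 0) := by
    intro S
    induction S using Finset.induction_on with
    | empty => simp
    | insert a s ha ih =>
      rw [Finset.sum_insert ha, Finset.sum_insert ha, AddMonoidAlgebra.coeff_add, Finsupp.add_apply,
        ih, h2]
  rw [h1, h3, Finset.sum_ite_eq']
  split_ifs with h4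
  · rfl
  · rw [notMem_support_iff.1 h4]

end Pool.Agent.V5helper11.VM
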